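import Pool.Agent.H230R4.BSD.Tau

/-!
# A Tauberian theorem for the products of Birch and Swinnerton-Dyer

Let `C : y² = x³ + a x + b` be an elliptic curve over `ℚ`, `EP(x)` the product of `#C(𝔽_p) / p`
over the good primes `p ≤ x`, `F` the entire continuation of the (incomplete) `L`-series,
`m = ord_{s=1} F` and `l = lim F(s) / (s - 1) ^ m` the leading coefficient. Assume that
`∑_p (a_p² / p - 1) p ^ (-1-w)` has a limit as `w → 0+` (this is a known theorem on the symmetric
square `L`-function, for all elliptic curves). Then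

1. either `EP(x) / (log x) ^ m` is unbounded, or the Riemann hypothesis holds for `L(C, s)` and
the logarithmic means of `log (EP(n) / (log n) ^ m)` converge, with the limit
`log (√2 e ^ (m γ) / |l|)`, the logarithm of Goldfeld's constant;

2. if `F` has no real zero `> 1`, then either `EP(x) / (log x) ^ m` is unbounded and has lower limit
`0`, or the Riemann hypothesis holds for `L(C, s)` and the logarithmic means converge to this limit.

So a bound from one side only, at the critical exponent, already gives the Riemann hypothesis and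
the asymptotic formula with Goldfeld's constant, in the sense of logarithmic means.

Proof: Landau's theorem (files `Pool/Agent/H438R3/BSD` of helper438) shows that the Dirichlet series of
the nonnegative sequence `± (c - log (EP(n) / (log n) ^ m))` converges for `Re s > 1`; its behaviour at
`1 + w` is computed exactly (`key2`, `DD_limit`), and Karamata's theorem is applied (a starting file,
`Pool/Agent/H306R2/Karamata2.lean`).
-/

set_option autoImplicit false

open Filter Topology

namespace Pool.Agent.Results.MP_3283e1_nt.LogMeans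

open Pool.Agent.H438R3.BSD Pool.Agent.H230R4.BSD

/-- Euler's constant -/
noncomputable abbrev γ : ℝ := Real.eulerMascheroniConstant

open Classical in
/-- the sum of `(a_p² / p - 1) p ^ (-1-w)` over the good primes, `a_p = p - N_p` where `N_p` is the
number of affine points -/
noncomputable def symSq (a b : ℤ) (w : ℝ) : ℝ :=
  ∑' p : ℕ, if Good a b p then (((p : ℝ) - Np a b p) ^ 2 / p - 1) * (p : ℝ) ^ (-(1 + w)) else 0

/-- the logarithmic mean of `log (EP(n) / (log n) ^ m)` over `2 ≤ n ≤ N` -/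
noncomputable def logMean (a b : ℤ) (m N : ℕ) : ℝ :=
  (∑ n ∈ Finset.Icc 2 N, Real.log (EP a b n / Real.log n ^ m) / n) / Real.log N

open Classical in
lemma good_cofinite (a b : ℤ) (hab : 4 * a ^ 3 + 27 * b ^ 2 ≠ 0) :
    {p : ℕ | p.Prime ∧ ¬ Good a b p}.Finite := by
  have h0 : (2 * (-4 * a ^ 3 - 27 * b ^ 2) : ℤ) ≠ 0 := by
    intro h
    apply hab
    linarith
  refine ((2 * (-4 * a ^ 3 - 27 * b ^ 2) : ℤ).natAbs.divisors.finite_toSet).subset ?_
  intro p hp
  obtain ⟨h1, h2⟩ := hp
  have h3 : (p : ℤ) ∣ 2 * (-4 * a ^ 3 - 27 * b ^ 2) := by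
    by_contra h4
    exact h2 ⟨h1, h4⟩
  simp only [Finset.mem_coe, Nat.mem_divisors]
  exact ⟨Int.natCast_dvd.1 h3, Int.natAbs_ne_zero.2 h0⟩

lemma log_quot (a b : ℤ) (m : ℕ) {n : ℕ} (hn : 2 ≤ n) :
    Real.log (EP a b n / Real.log n ^ m) = uu a b m n := by
  have hl : 0 < Real.log n := Real.log_pos (by exact_mod_cast (by omega : 1 < n))
  unfold uu
  rw [Real.log_div (EP_pos a b n).ne' (by positivity), Real.log_pow]

lemma logMean_eq (a b : ℤ) (m N : ℕ) :
    logMean a b m N = (∑ n ∈ Finset.Icc 2 N, uu a b m n / n) / Real.log N := by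
  unfold logMean
  congr 1
  refine Finset.sum_congr rfl fun n hn => ?_
  rw [log_quot a b m (Finset.mem_Icc.1 hn).1]

open Classical in
theorem result (a b : ℤ) (hab : 4 * a ^ 3 + 27 * b ^ 2 ≠ 0) (F : ℂ → ℂ) (hF : IsL a b F)
    (hS : ∃ Φ : ℝ, Tendsto (symSq a b) (𝓝[>] 0) (𝓝 Φ)) :
    ∃ (m : ℕ) (l : ℂ), analyticOrderAt F 1 = m ∧ l ≠ 0 ∧
      Tendsto (fun s => F s / (s - 1) ^ m) (𝓝[≠] 1) (𝓝 l) ∧
      ((∀ B : ℝ, ∃ᶠ x : ℕ in atTop, B < EP a b x / Real.log x ^ m) ∨
        ((∀ s : ℂ, 1 < s.re → F s ≠ 0) ∧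
          Tendsto (logMean a b m) atTop (𝓝 (Real.log (√2 * Real.exp (m * γ) / ‖l‖))))) ∧
      ((∀ σ : ℝ, 1 < σ → F σ ≠ 0) →
        ((∀ B : ℝ, ∃ᶠ x : ℕ in atTop, B < EP a b x / Real.log x ^ m) ∧
          (∀ B : ℝ, 0 < B → ∃ᶠ x : ℕ in atTop, EP a b x / Real.log x ^ m < B)) ∨
        ((∀ s : ℂ, 1 < s.re → F s ≠ 0) ∧
          Tendsto (logMean a b m) atTop (𝓝 (Real.log (√2 * Real.exp (m * γ) / ‖l‖))))) := by
  obtain ⟨m, hm⟩ := order_finite hF
  obtain ⟨l, hl, hlim⟩ := lead hF.1 m hm
  have hg : ∀ p, Good a b p → p.Prime := fun p hp => hp.1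
  have ha : ∀ p, Good a b p → ‖al a b p‖ = (p : ℝ) ^ (1 / 2 : ℝ) := fun p hp => al_norm hp
  have hl0 : 0 < ‖l‖ := norm_pos_iff.2 hl
  obtain ⟨Φ, hΦ⟩ := hS
  have hΦ2 : Tendsto (fun w : ℝ => ∑' p : ℕ, if Good a b p then
      ((2 * (al a b p).re) ^ 2 / p - 1) * (p : ℝ) ^ (-(1 + w)) else 0) (𝓝[>] 0) (𝓝 Φ) := by
    refine hΦ.congr fun w => ?_
    unfold symSq
    refine tsum_congr fun p => ?_
    have : 2 * (al a b p).re = (p : ℝ) - Np a b p := by
      unfold al
      simp only
      ring
    rw [this]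
  have hDD := DD_limit hg ha (good_cofinite a b hab) Φ hΦ2
  have e1 : (m : ℝ) * γ - Real.log ‖l‖ + Real.log 2 / 2 =
      Real.log (√2 * Real.exp (m * γ) / ‖l‖) := by
    rw [Real.log_div (by positivity) hl0.ne', Real.log_mul (by positivity) (by positivity),
      Real.log_exp, Real.log_sqrt (by norm_num)]
    ring
  have hlm : (fun N : ℕ => (∑ n ∈ Finset.Icc 2 N, uu a b m n / n) / Real.log N) = logMean a b m := by
    funext N
    rw [logMean_eq]
  -- bounded above
  have up : (∀ B : ℝ, ∃ᶠ x : ℕ in atTop, B < EP a b x / Real.log x ^ m) ∨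
      ((∀ s : ℂ, 1 < s.re → F s ≠ 0) ∧
        Tendsto (logMean a b m) atTop (𝓝 (Real.log (√2 * Real.exp (m * γ) / ‖l‖)))) := by
    by_cases h : ∀ B : ℝ, ∃ᶠ x : ℕ in atTop, B < EP a b x / Real.log x ^ m
    · exact Or.inl h
    · right
      push Not at h
      obtain ⟨B, hB⟩ := h
      have h1 : ∀ᶠ n : ℕ in atTop, (1 : ℝ) * uu a b m n ≤ Real.log B := by
        filter_upwards [hB, eventually_ge_atTop 3] with n hn hn3
        have h2 := exp_uu (a := a) (b := b) m hn3
        rw [Real.rpow_natCast] at h2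
        rw [h2] at hn
        rw [one_mul]
        have h3 : 0 < B := lt_of_lt_of_le (Real.exp_pos _) hn
        rw [← Real.log_exp (uu a b m n)]
        exact Real.log_le_log (Real.exp_pos _) hn
      have h2 := taub hF 1 (Or.inl rfl) _ hDD _ m h1 (by norm_num) l hl hlim
      rw [e1, hlm] at h2
      exact h2
  refine ⟨m, l, hm, hl, hlim, up, fun hreal => ?_⟩
  rcases up with h | h
  · by_cases h' : ∀ B : ℝ, 0 < B → ∃ᶠ x : ℕ in atTop, EP a b x / Real.log x ^ m < B
    · exact Or.inl ⟨h, h'⟩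
    · right
      push Not at h'
      obtain ⟨B, hB0, hB⟩ := h'
      have h1 : ∀ᶠ n : ℕ in atTop, (-1 : ℝ) * uu a b m n ≤ -Real.log B := by
        filter_upwards [hB, eventually_ge_atTop 3] with n hn hn3
        have h2 := exp_uu (a := a) (b := b) m hn3
        rw [Real.rpow_natCast] at h2
        rw [h2] at hn
        have h3 : Real.log B ≤ uu a b m n := by
          rw [← Real.log_exp (uu a b m n)]
          exact Real.log_le_log hB0 hn
        linarith
      have h2 := taub hF (-1) (Or.inr rfl) _ hDD _ m h1 (fun _ => hreal) l hl hlim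
      rw [e1, hlm] at h2
      exact h2
  · exact Or.inr h

end Pool.Agent.Results.MP_3283e1_nt.LogMeans
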